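import Mathlib

set_option autoImplicit false

/-!
# First-Fit on chordal graphs needs `c * ω * log n` colours, with one constant `c` for all `ω ≥ 2`

The graph is the lexicographic product `T[K_m]` of a binomial tree `T` with a complete graph on
`m = ⌊k / 2⌋` vertices, together with a disjoint `K_k` and isolated vertices.
-/

namespace Pool.Agent.Results.MP_4aa424_co.FirstFitChordal

open Finset

/-- `G` is chordal: every cycle `x 0, x 1, ..., x (n-1)` (indices modulo `n`, distinct vertices) of
length `n ≥ 4` has a chord, that is, an edge joining two non-consecutive vertices of the cycle. -/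
def IsChordal {V : Type} (G : SimpleGraph V) : Prop :=
  ∀ n : ℕ, 4 ≤ n → ∀ x : ZMod n → V, Function.Injective x → (∀ i, G.Adj (x i) (x (i + 1))) →
    ∃ i j : ZMod n, j ≠ i + 1 ∧ i ≠ j + 1 ∧ G.Adj (x i) (x j)

/-- The colour which First-Fit gives to the vertex `σ s` when the vertices of `G` are presented in
the order `σ 0, σ 1, ...`: the least positive integer not used on an earlier neighbour. -/
noncomputable def ffColour {V : Type} [Fintype V] (G : SimpleGraph V)
    (σ : Fin (Fintype.card V) ≃ V) : Fin (Fintype.card V) → ℕ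
  | s => sInf {c : ℕ | 1 ≤ c ∧ ∀ r : Fin (Fintype.card V), (_ : r < s) →
      G.Adj (σ r) (σ s) → ffColour G σ r ≠ c}
termination_by s => s.val

open Classical in
/-- The First-Fit chromatic number: the largest number of colours which First-Fit uses, over all
orderings of the vertices. -/
noncomputable def chiFF {V : Type} [Fintype V] (G : SimpleGraph V) : ℕ :=
  (univ : Finset (Fin (Fintype.card V) ≃ V)).sup fun σ => (univ.image (ffColour G σ)).card

/-! ### Walls -/

section Wall

variable {V : Type} [Fintype V] {G : SimpleGraph V}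

lemma ff_wall {f : V → ℕ} (hpos : ∀ v, 1 ≤ f v) (hproper : ∀ u v, G.Adj u v → f u ≠ f v)
    (hwall : ∀ v c, 1 ≤ c → c < f v → ∃ u, G.Adj u v ∧ f u = c)
    (σ : Fin (Fintype.card V) ≃ V) (hσ : Monotone (f ∘ σ)) :
    ∀ s, ffColour G σ s = f (σ s) := by
  intro s
  induction s using WellFoundedLT.induction with
  | ind s ih =>
    rw [ffColour]
    have hset : {c : ℕ | 1 ≤ c ∧ ∀ r : Fin (Fintype.card V), (_ : r < s) →
        G.Adj (σ r) (σ s) → ffColour G σ r ≠ c} =
        {c : ℕ | 1 ≤ c ∧ ∀ r : Fin (Fintype.card V), r < s →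
        G.Adj (σ r) (σ s) → f (σ r) ≠ c} := by
      ext c
      simp only [Set.mem_ofPred_eq]
      constructor
      · rintro ⟨h1, h2⟩
        refine ⟨h1, fun r hr hadj => ?_⟩
        rw [← ih r hr]
        exact h2 r hr hadj
      · rintro ⟨h1, h2⟩
        refine ⟨h1, fun r hr hadj => ?_⟩
        rw [ih r hr]
        exact h2 r hr hadj
    rw [hset]
    apply le_antisymm
    · apply Nat.sInf_le
      refine ⟨hpos _, fun r _ hadj => hproper _ _ hadj⟩
    · apply le_csInf
      · exact ⟨f (σ s), hpos _, fun r _ hadj => hproper _ _ hadj⟩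
      · rintro c ⟨hc1, hc2⟩
        by_contra hlt
        push Not at hlt
        obtain ⟨u, hu, hfu⟩ := hwall (σ s) c hc1 hlt
        have hr : σ.symm u < s := by
          by_contra hge
          push Not at hge
          have := hσ hge
          simp only [Function.comp_apply, Equiv.apply_symm_apply] at this
          omega
        exact hc2 (σ.symm u) hr (by simpa using hu) (by simpa using hfu)

/-- A wall with a vertex of colour `t` forces First-Fit to use at least `t` colours. -/
lemma le_chiFF {f : V → ℕ} (hpos : ∀ v, 1 ≤ f v) (hproper : ∀ u v, G.Adj u v → f u ≠ f v)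
    (hwall : ∀ v c, 1 ≤ c → c < f v → ∃ u, G.Adj u v ∧ f u = c) (v : V) :
    f v ≤ chiFF G := by
  classical
  let e : Fin (Fintype.card V) ≃ V := (Fintype.equivFin V).symm
  let σ : Fin (Fintype.card V) ≃ V := (Tuple.sort (f ∘ e)).trans e
  have hσ : Monotone (f ∘ σ) := by
    have := Tuple.monotone_sort (f ∘ e)
    intro a b hab
    exact this hab
  have hff := ff_wall hpos hproper hwall σ hσ
  have h1 : (Finset.Icc 1 (f v)) ⊆ univ.image (ffColour G σ) := by
    intro c hc
    rw [Finset.mem_Icc] at hc
    rw [Finset.mem_image]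
    rcases eq_or_lt_of_le hc.2 with h | h
    · exact ⟨σ.symm v, Finset.mem_univ _, by rw [hff]; simp [h]⟩
    · obtain ⟨u, _, hu⟩ := hwall v c hc.1 h
      exact ⟨σ.symm u, Finset.mem_univ _, by rw [hff]; simp [hu]⟩
  have h2 := Finset.card_le_card h1
  rw [Nat.card_Icc] at h2
  have h3 : (univ.image (ffColour G σ)).card ≤ chiFF G := by
    unfold chiFF
    have := Finset.le_sup (s := (univ : Finset (Fin (Fintype.card V) ≃ V)))
      (f := fun σ => (univ.image (ffColour G σ)).card) (Finset.mem_univ σ)
    simpa using this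
  omega

end Wall

/-- A graph in which the earlier neighbours of each vertex form a clique is chordal. -/
lemma chordal_of_rank {V : Type} {G : SimpleGraph V} (rk : V → ℕ)
    (h1 : ∀ u v, G.Adj u v → rk u ≠ rk v)
    (h2 : ∀ u v w, G.Adj u v → G.Adj w v → rk u < rk v → rk w < rk v → u ≠ w → G.Adj u w) :
    IsChordal G := by
  intro n hn x hx hadj
  have : NeZero n := ⟨by omega⟩
  obtain ⟨i, -, hi⟩ := Finset.exists_max_image (univ : Finset (ZMod n)) (fun i => rk (x i))
    ⟨0, Finset.mem_univ _⟩
  have ha : G.Adj (x (i - 1)) (x i) := by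
    have := hadj (i - 1)
    rwa [sub_add_cancel] at this
  have hb : G.Adj (x (i + 1)) (x i) := (hadj i).symm
  have hra : rk (x (i - 1)) < rk (x i) :=
    lt_of_le_of_ne (hi _ (Finset.mem_univ _)) (h1 _ _ ha)
  have hrb : rk (x (i + 1)) < rk (x i) :=
    lt_of_le_of_ne (hi _ (Finset.mem_univ _)) (h1 _ _ hb)
  have key : ∀ c : ℕ, 0 < c → c < n → ((c : ℕ) : ZMod n) ≠ 0 := by
    intro c hc0 hcn h
    rw [ZMod.natCast_eq_zero_iff] at h
    exact absurd (Nat.le_of_dvd hc0 h) (by omega)
  have hne : i - 1 ≠ i + 1 := by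
    intro h
    have h' : ((2 : ℕ) : ZMod n) = 0 := by
      push_cast
      linear_combination -h
    exact key 2 (by norm_num) (by omega) h'
  refine ⟨i - 1, i + 1, ?_, ?_, ?_⟩
  · intro h
    have h' : ((1 : ℕ) : ZMod n) = 0 := by
      push_cast
      linear_combination h
    exact key 1 (by norm_num) (by omega) h'
  · intro h
    have h' : ((3 : ℕ) : ZMod n) = 0 := by
      push_cast
      linear_combination -h
    exact key 3 (by norm_num) (by omega) h'
  · exact h2 _ _ _ ha hb hra hrb (fun h => hne (hx h))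

/-! ### The graph -/

/-- `S` is the parent of `T` in the binomial tree on the subsets of `{0, ..., j-1}`. -/
def IsPar {j : ℕ} (S T : Finset (Fin j)) : Prop :=
  ∃ t : Fin j, (∀ s ∈ S, t < s) ∧ T = insert t S

lemma isPar_card {j : ℕ} {S T : Finset (Fin j)} (h : IsPar S T) : T.card = S.card + 1 := by
  obtain ⟨t, ht, rfl⟩ := h
  exact Finset.card_insert_of_notMem fun hm => lt_irrefl _ (ht t hm)

lemma isPar_unique {j : ℕ} {S S' T : Finset (Fin j)} (h : IsPar S T) (h' : IsPar S' T) :
    S = S' := by
  obtain ⟨t, ht, rfl⟩ := h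
  obtain ⟨t', ht', he⟩ := h'
  have hn : t ∉ S := fun hm => lt_irrefl _ (ht t hm)
  have hn' : t' ∉ S' := fun hm => lt_irrefl _ (ht' t' hm)
  have e : t = t' := by
    have m1 : t ∈ insert t' S' := by rw [← he]; exact Finset.mem_insert_self _ _
    have m2 : t' ∈ insert t S := by rw [he]; exact Finset.mem_insert_self _ _
    rw [Finset.mem_insert] at m1 m2
    rcases m1 with m1 | m1
    · exact m1
    · rcases m2 with m2 | m2
      · exact m2.symm
      · exact absurd (ht t' m2) (not_lt.2 (ht' t m1).le)
  subst e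
  rw [← Finset.erase_insert hn, he, Finset.erase_insert hn']

/-- The level of `S` in the binomial tree: the least element of `S`, or `j` if `S` is empty. -/
noncomputable def lev {j : ℕ} (S : Finset (Fin j)) : ℕ :=
  if h : S.Nonempty then (S.min' h : ℕ) else j

lemma lev_insert {j : ℕ} {S : Finset (Fin j)} {t : Fin j} (ht : ∀ s ∈ S, t < s) :
    lev (insert t S) = t := by
  unfold lev
  rw [dif_pos (Finset.insert_nonempty _ _)]
  congr 1
  apply le_antisymm
  · exact Finset.min'_le _ _ (Finset.mem_insert_self _ _)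
  · apply Finset.le_min'
    intro y hy
    rcases Finset.mem_insert.1 hy with rfl | hy
    · exact le_rfl
    · exact (ht y hy).le

lemma lt_lev {j : ℕ} {S : Finset (Fin j)} {t : Fin j} (ht : ∀ s ∈ S, t < s) : (t : ℕ) < lev S := by
  unfold lev
  split_ifs with h
  · exact_mod_cast ht _ (Finset.min'_mem _ h)
  · exact t.2

lemma of_lt_lev {j : ℕ} {S : Finset (Fin j)} {q : ℕ} (hq : q < lev S) :
    ∃ t : Fin j, (t : ℕ) = q ∧ ∀ s ∈ S, t < s := by
  unfold lev at hq
  split_ifs at hq with h
  · refine ⟨⟨q, lt_trans hq (S.min' h).2⟩, rfl, fun s hs => ?_⟩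
    have := Finset.min'_le S s hs
    rw [Fin.lt_def]
    have h3 : ((S.min' h : Fin j) : ℕ) ≤ s := by exact_mod_cast this
    simp only
    omega
  · refine ⟨⟨q, hq⟩, rfl, fun s hs => ?_⟩
    exact absurd ⟨s, hs⟩ h

/-- The vertices: the binomial tree with each vertex replaced by `m` vertices, `k` further vertices
forming a clique, and `r` isolated vertices. -/
abbrev Vt (j m k r : ℕ) : Type := (Finset (Fin j) × Fin m) ⊕ (Fin k ⊕ Fin r)

/-- The adjacency relation of the example. -/
def adj {j m k r : ℕ} : Vt j m k r → Vt j m k r → Prop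
  | Sum.inl (S, a), Sum.inl (T, b) => (S = T ∧ a ≠ b) ∨ IsPar S T ∨ IsPar T S
  | Sum.inr (Sum.inl a), Sum.inr (Sum.inl b) => a ≠ b
  | _, _ => False

/-- The graph. -/
def Gr (j m k r : ℕ) : SimpleGraph (Vt j m k r) where
  Adj := adj
  symm := ⟨by
    rintro (⟨S, a⟩ | a | a) (⟨T, b⟩ | b | b) h
    · rcases h with ⟨h1, h2⟩ | h | h
      · exact Or.inl ⟨h1.symm, h2.symm⟩
      · exact Or.inr (Or.inr h)
      · exact Or.inr (Or.inl h)
    all_goals first | exact h | exact Ne.symm h⟩
  loopless := ⟨by
    rintro (⟨S, a⟩ | a | a) h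
    · rcases h with ⟨_, h2⟩ | h | h
      · exact h2 rfl
      · have := isPar_card h; omega
      · have := isPar_card h; omega
    · exact h rfl
    · exact h⟩

/-- the rank in the elimination order -/
def rk {j m k r : ℕ} : Vt j m k r → ℕ
  | Sum.inl (S, a) => S.card * m + a
  | Sum.inr (Sum.inl a) => a
  | Sum.inr (Sum.inr _) => 0

lemma mul_lt_aux {c d m a b : ℕ} (h : c * m + a < d * m + b) (hb : b < m) : c ≤ d := by
  by_contra hlt
  push Not at hlt
  have : (d + 1) * m ≤ c * m := Nat.mul_le_mul_right _ hlt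
  nlinarith

lemma chordal (j m k r : ℕ) : IsChordal (Gr j m k r) := by
  apply chordal_of_rank rk
  · rintro (⟨S, a⟩ | a | a) (⟨T, b⟩ | b | b) h
    · rcases h with ⟨h1, h2⟩ | h | h
      · subst h1
        intro he
        apply h2
        simp only [rk, Nat.add_left_cancel_iff] at he
        exact Fin.ext he
      · have hc := isPar_card h
        have ha := a.2
        simp only [rk, hc]
        intro he
        nlinarith
      · have hc := isPar_card h
        have hb := b.2
        simp only [rk, hc]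
        intro he
        nlinarith
    · exact h.elim
    · exact h.elim
    · exact h.elim
    · intro he
      exact h (Fin.ext he)
    · exact h.elim
    · exact h.elim
    · exact h.elim
    · exact h.elim
  · have key : ∀ (S T : Finset (Fin j)) (a b : Fin m),
        (Gr j m k r).Adj (Sum.inl (S, a)) (Sum.inl (T, b)) →
        rk (k := k) (r := r) (Sum.inl (S, a) : Vt j m k r) < rk (Sum.inl (T, b) : Vt j m k r) →
        S = T ∨ IsPar S T := by
      intro S T a b h hlt
      rcases h with ⟨h1, h2⟩ | h | h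
      · exact Or.inl h1
      · exact Or.inr h
      · exfalso
        have hc := isPar_card h
        have := mul_lt_aux hlt b.2
        omega
    rintro (⟨S, a⟩ | a | a) (⟨T, b⟩ | b | b) (⟨U, c⟩ | c | c) h h' hr hr' hne
    all_goals try exact (show False from h).elim
    all_goals try exact (show False from h').elim
    · have e1 := key _ _ _ _ h hr
      have e2 := key _ _ _ _ h' hr'
      show (S = U ∧ a ≠ c) ∨ IsPar S U ∨ IsPar U S
      have hne' : S = U → a ≠ c := by
        rintro rfl rfl
        exact hne rfl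
      rcases e1 with rfl | e1
      · rcases e2 with rfl | e2
        · exact Or.inl ⟨rfl, hne' rfl⟩
        · exact Or.inr (Or.inr e2)
      · rcases e2 with rfl | e2
        · exact Or.inr (Or.inl e1)
        · have := isPar_unique e1 e2
          exact Or.inl ⟨this, hne' this⟩
    · show a ≠ c
      rintro rfl
      exact hne rfl

/-- The colours of First-Fit. -/
noncomputable def ffc {j m k r : ℕ} : Vt j m k r → ℕ
  | Sum.inl (S, a) => lev S * m + a + 1
  | Sum.inr (Sum.inl a) => a + 1
  | Sum.inr (Sum.inr _) => 1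

lemma ffc_pos {j m k r : ℕ} : ∀ v : Vt j m k r, 1 ≤ ffc v := by
  rintro (⟨S, a⟩ | a | a) <;> simp [ffc]

lemma ffc_proper {j m k r : ℕ} : ∀ u v : Vt j m k r, (Gr j m k r).Adj u v → ffc u ≠ ffc v := by
  have key : ∀ (S T : Finset (Fin j)) (a b : Fin m), IsPar S T →
      lev T * m + b + 1 < lev S * m + a + 1 := by
    rintro S T a b ⟨t, ht, rfl⟩
    rw [lev_insert ht]
    have h1 := lt_lev ht
    have h2 : ((t : ℕ) + 1) * m ≤ lev S * m := Nat.mul_le_mul_right _ h1
    have hb := b.2
    nlinarith
  rintro (⟨S, a⟩ | a | a) (⟨T, b⟩ | b | b) h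
  · rcases h with ⟨h1, h2⟩ | h | h
    · subst h1
      intro he
      apply h2
      simp only [ffc] at he
      exact Fin.ext (by omega)
    · have := key S T a b h
      simp only [ffc]
      omega
    · have := key T S b a h
      simp only [ffc]
      omega
  · exact h.elim
  · exact h.elim
  · exact h.elim
  · intro he
    simp only [ffc] at he
    exact h (Fin.ext (by omega))
  · exact h.elim
  · exact h.elim
  · exact h.elim
  · exact h.elim

lemma ffc_wall {j m k r : ℕ} : ∀ (v : Vt j m k r) (c : ℕ), 1 ≤ c → c < ffc v →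
    ∃ u, (Gr j m k r).Adj u v ∧ ffc u = c := by
  rintro (⟨S, a⟩ | a | a) c hc1 hc2
  · simp only [ffc] at hc2
    have hm : 0 < m := lt_of_le_of_lt (Nat.zero_le _) a.2
    obtain ⟨c, rfl⟩ : ∃ c', c = c' + 1 := ⟨c - 1, by omega⟩
    have hdm := Nat.div_add_mod c m
    have hmod := Nat.mod_lt c hm
    rcases lt_or_ge (c / m) (lev S) with hq | hq
    · obtain ⟨t, ht, htS⟩ := of_lt_lev hq
      refine ⟨Sum.inl (insert t S, ⟨c % m, hmod⟩), Or.inr (Or.inr ⟨t, htS, rfl⟩), ?_⟩
      simp only [ffc]
      rw [lev_insert htS, ht]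
      have : c / m * m = m * (c / m) := Nat.mul_comm _ _
      omega
    · have hle : lev S * m ≤ c / m * m := Nat.mul_le_mul_right _ hq
      have hcomm : c / m * m = m * (c / m) := Nat.mul_comm _ _
      have hca : c % m < a := by omega
      have hq' : c / m = lev S := by
        apply le_antisymm _ hq
        by_contra hlt
        push Not at hlt
        have : (lev S + 1) * m ≤ c / m * m := Nat.mul_le_mul_right _ hlt
        have ha := a.2
        rw [Nat.add_mul, Nat.one_mul] at this
        omega
      refine ⟨Sum.inl (S, ⟨c % m, hmod⟩), Or.inl ⟨rfl, ?_⟩, ?_⟩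
      · intro he
        have : c % m = a := by rw [← he]
        omega
      · simp only [ffc]
        rw [← hq']
        omega
  · simp only [ffc] at hc2
    refine ⟨Sum.inr (Sum.inl ⟨c - 1, by omega⟩), ?_, ?_⟩
    · show (⟨c - 1, _⟩ : Fin k) ≠ a
      intro he
      have : c - 1 = a := by rw [← he]
      omega
    · simp only [ffc]
      omega
  · simp only [ffc] at hc2
    omega

lemma colorable {j m k r : ℕ} (hmk : 2 * m ≤ k) (hk : 0 < k) : (Gr j m k r).Colorable k := by
  refine ⟨SimpleGraph.Coloring.mk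
    (fun v : Vt j m k r => match v with
      | Sum.inl (S, a) => (⟨(S.card % 2) * m + a, by
          have h1 := Nat.mod_lt S.card (show 0 < 2 by norm_num)
          have h2 := a.2
          have h3 : (S.card % 2) * m ≤ 1 * m := Nat.mul_le_mul_right _ (by omega)
          omega⟩ : Fin k)
      | Sum.inr (Sum.inl a) => a
      | Sum.inr (Sum.inr _) => ⟨0, hk⟩) ?_⟩
  have key : ∀ (S T : Finset (Fin j)) (a b : Fin m), IsPar S T →
      (S.card % 2) * m + a ≠ (T.card % 2) * m + b := by
    intro S T a b h
    rw [isPar_card h]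
    have ha := a.2
    have hb := b.2
    rcases Nat.mod_two_eq_zero_or_one S.card with h0 | h0
    · have : (S.card + 1) % 2 = 1 := by omega
      rw [h0, this]
      omega
    · have : (S.card + 1) % 2 = 0 := by omega
      rw [h0, this]
      omega
  rintro (⟨S, a⟩ | a | a) (⟨T, b⟩ | b | b) h
  · rcases h with ⟨h1, h2⟩ | h | h
    · subst h1
      intro he
      apply h2
      rw [Fin.mk.injEq] at he
      exact Fin.ext (by omega)
    · intro he
      rw [Fin.mk.injEq] at he
      exact key S T a b h he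
    · intro he
      rw [Fin.mk.injEq] at he
      exact key T S b a h he.symm
  · exact h.elim
  · exact h.elim
  · exact h.elim
  · exact h
  · exact h.elim
  · exact h.elim
  · exact h.elim
  · exact h.elim

lemma cliqueNum_eq {j m k r : ℕ} (hmk : 2 * m ≤ k) (hk : 0 < k) :
    (Gr j m k r).cliqueNum = k := by
  classical
  apply le_antisymm
  · obtain ⟨s, hs⟩ := (Gr j m k r).exists_isNClique_cliqueNum
    by_contra hlt
    push Not at hlt
    have hfree : (Gr j m k r).CliqueFree (k + 1) := (colorable hmk hk).cliqueFree (Nat.lt_succ_self k)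
    exact (hfree.mono hlt) s hs
  · let t : Finset (Vt j m k r) := univ.image (fun a : Fin k => Sum.inr (Sum.inl a))
    have hcard : t.card = k := by
      rw [Finset.card_image_of_injective _ (fun a b h => by simpa using h)]
      simp
    have hcl : (Gr j m k r).IsClique (t : Set (Vt j m k r)) := by
      intro x hx y hy hxy
      simp only [t, Finset.coe_image, Finset.coe_univ, Set.image_univ, Set.mem_range] at hx hy
      obtain ⟨a, rfl⟩ := hx
      obtain ⟨b, rfl⟩ := hy
      show a ≠ b
      rintro rfl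
      exact hxy rfl
    have := SimpleGraph.IsClique.card_le_cliqueNum (tc := hcl)
    rwa [hcard] at this

lemma card_Vt (j m k r : ℕ) : Fintype.card (Vt j m k r) = 2 ^ j * m + (k + r) := by
  simp [Vt]

/-- **First-Fit on chordal graphs.** For every `k ≥ 2` and every `n ≥ k ^ 2` there is a chordal
graph with exactly `n` vertices and clique number `k` on which First-Fit uses, for a suitable
ordering of the vertices, at least `(1 / 6) * k * log₂ n` colours. -/
theorem result : ∀ k : ℕ, 2 ≤ k → ∀ n : ℕ, k ^ 2 ≤ n →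
    ∃ (V : Type) (_ : Fintype V) (G : SimpleGraph V), Fintype.card V = n ∧ IsChordal G ∧
      G.cliqueNum = k ∧ (1 / 6 : ℝ) * k * Real.logb 2 n ≤ (chiFF G : ℝ) := by
  intro k hk n hn
  set m := k / 2 with hm
  have hm1 : 1 ≤ m := by omega
  have hmk : 2 * m ≤ k := by omega
  have hkm : k ≤ 3 * m := by omega
  have hn4 : 4 ≤ n := by nlinarith
  have hkn : k ≤ n := by nlinarith
  set q := (n - k) / m with hq
  set j := Nat.log 2 q with hj
  have hq1 : 1 ≤ q := by
    rw [hq, Nat.one_le_div_iff hm1]
    have : 2 * k ≤ n := by nlinarith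
    omega
  have h2j : 2 ^ j ≤ q := Nat.pow_log_le_self 2 (by omega)
  have h2j' : q < 2 ^ (j + 1) := Nat.lt_pow_succ_log_self (by norm_num) q
  have hle : 2 ^ j * m ≤ n - k := le_trans (Nat.mul_le_mul_right m h2j) (Nat.div_mul_le_self _ _)
  refine ⟨Vt j m k (n - k - 2 ^ j * m), inferInstance, Gr j m k (n - k - 2 ^ j * m), ?_,
    chordal _ _ _ _, cliqueNum_eq hmk (by omega), ?_⟩
  · rw [card_Vt]
    omega
  · have hff := le_chiFF (G := Gr j m k (n - k - 2 ^ j * m)) ffc_pos ffc_proper ffc_wall
      (Sum.inl (∅, ⟨m - 1, by omega⟩))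
    have hval : ffc (Sum.inl ((∅ : Finset (Fin j)), (⟨m - 1, by omega⟩ : Fin m)) :
        Vt j m k (n - k - 2 ^ j * m)) = (j + 1) * m := by
      simp only [ffc, lev, Finset.not_nonempty_empty, dif_neg, not_false_eq_true]
      rw [Nat.add_mul]
      omega
    rw [hval] at hff
    have hffR : ((j + 1 : ℕ) : ℝ) * (m : ℝ) ≤ (chiFF (Gr j m k (n - k - 2 ^ j * m)) : ℝ) := by
      exact_mod_cast hff
    refine le_trans ?_ hffR
    -- `n ≤ (2 ^ (j + 1)) ^ 2`
    have h1 : n - k < 2 ^ (j + 1) * m := by
      have := Nat.div_add_mod (n - k) m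
      have h3 := Nat.mod_lt (n - k) hm1
      have h4 : (q + 1) * m ≤ 2 ^ (j + 1) * m := Nat.mul_le_mul_right m h2j'
      have h5 : m * ((n - k) / m) = q * m := by rw [hq, Nat.mul_comm]
      nlinarith
    have h2 : n ≤ (2 ^ (j + 1)) ^ 2 := by
      by_contra hlt
      push Not at hlt
      -- `2 ^ (j+1) < √n`, `2 m ≤ k ≤ √n`, hence `2 (n - k) < n`
      have h3 : (2 ^ (j + 1) * k) ^ 2 < n ^ 2 := by
        rw [Nat.mul_pow, Nat.pow_two n]
        have hkpos : 0 < k ^ 2 := by positivity
        calc (2 ^ (j + 1)) ^ 2 * k ^ 2 < n * k ^ 2 := Nat.mul_lt_mul_of_pos_right hlt hkpos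
          _ ≤ n * n := Nat.mul_le_mul_left n hn
      have h4 : 2 ^ (j + 1) * k < n := lt_of_pow_lt_pow_left₀ 2 (by positivity) h3
      have h5 : 2 * (2 ^ (j + 1) * m) ≤ 2 ^ (j + 1) * k := by
        calc 2 * (2 ^ (j + 1) * m) = 2 ^ (j + 1) * (2 * m) := by ring
          _ ≤ 2 ^ (j + 1) * k := Nat.mul_le_mul_left _ hmk
      have h6 : 2 * (n - k) < n := by omega
      have h7 : 2 * k ≤ n := by nlinarith
      omega
    have h3 : Real.logb 2 n ≤ 2 * ((j + 1 : ℕ) : ℝ) := by
      have hnpos : (0 : ℝ) < n := by exact_mod_cast (by omega : 0 < n)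
      rw [Real.logb_le_iff_le_rpow (by norm_num) hnpos]
      have : (n : ℝ) ≤ ((2 : ℝ) ^ (j + 1)) ^ 2 := by exact_mod_cast h2
      refine this.trans (le_of_eq ?_)
      rw [← pow_mul, ← Real.rpow_natCast]
      congr 1
      push_cast
      ring
    have hkR : (k : ℝ) ≤ 3 * (m : ℝ) := by exact_mod_cast hkm
    have hk0 : (0 : ℝ) ≤ k := by positivity
    have hj0 : (0 : ℝ) ≤ ((j + 1 : ℕ) : ℝ) := by positivity
    calc (1 / 6 : ℝ) * k * Real.logb 2 n ≤ (1 / 6 : ℝ) * k * (2 * ((j + 1 : ℕ) : ℝ)) := by
          apply mul_le_mul_of_nonneg_left h3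
          positivity
      _ = (1 / 3 : ℝ) * ((j + 1 : ℕ) : ℝ) * k := by ring
      _ ≤ (1 / 3 : ℝ) * ((j + 1 : ℕ) : ℝ) * (3 * (m : ℝ)) := by
          apply mul_le_mul_of_nonneg_left hkR
          positivity
      _ = ((j + 1 : ℕ) : ℝ) * (m : ℝ) := by ring

end Pool.Agent.Results.MP_4aa424_co.FirstFitChordal
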